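import Pool.Agent.Helper52_XQ.CtxB

/-!
Squad XQ, module CTX: the context of the torn bodies.
-/

set_option autoImplicit false

namespace Pool.Agent.XQ.H52

open MeasureTheory Complex Filter Topology Pool.Agent.H62T
open Pool.Agent.H16F (Sublin)
open Pool.Agent.AEU Pool.Agent.XQ

theorem inv_app (g : Iso2) (x : ℂ) : g⁻¹ (g x) = x := by
  rw [AffineIsometryEquiv.coe_inv]; exact g.symm_apply_apply x

theorem mul_inv_app (g g' : Iso2) (x : ℂ) : (g * g'⁻¹) (g' x) = g x := by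
  rw [AffineIsometryEquiv.coe_mul, Function.comp_apply, inv_app]

theorem mul_inv_mv (g g' : Iso2) (s : HP) : mv (g * g'⁻¹) (mv g' s) = mv g s := by
  rw [mv_mul, Pool.Agent.AEU.H69.mv_inv' act]

theorem neg_ip {a b c : ℂ} (h : ip (a - b) c ≠ 0) : ip (b - a) c ≠ 0 := by
  intro h0; apply h
  rw [← neg_sub, Pool.Agent.AEU.H69.ip_neg_left, h0, neg_zero]

theorem torn_Q (hvxx : VxxStatement) (hto3 : To3Statement) {P Q : Finset HP} (hG : GenX P)
    (hQ : Pg Q) {L : ℝ} {h : ℂ → ℝ} {i j k l : HP} {v w : ℂ} {g1 g2 : Iso2}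
    (T : QTor Q P L h i j k l v w g1 g2) :
    (∃ c, TornC Q {i, j, k, l} h L c ∧ Std3 {i, j, k, l} (Mm {i, j, k, l} c) L ∧
      (Mm {i, j, k, l} c).card = 2) ∧
    ∃ a ∈ P, ∃ b ∈ P, ∃ b' ∈ P, ∃ c ∈ P, Ne4 a b b' c ∧ ∃ f : Iso2, mv f a = c ∧ mv f c = a ∧
      ‖vx a b - f (vx a b')‖ = L / 2 := by
  have hP := hG.gen.pg
  have g1' := hG.gen.g1
  have hvx := (hvxx Q hQ).2.2.2.2.1
  obtain ⟨hv, -, dij⟩ := hvx i j v T.sh.vi
  obtain ⟨hw, -, dkl⟩ := hvx k l w T.sh.wk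
  obtain ⟨nij, nik, nil, njk, njl, nkl⟩ := T.sh.ne
  have ui := hQ.unit i T.sh.vi.mem₁
  have uj := hQ.unit j T.sh.vi.mem₂
  have uk := hQ.unit k T.sh.wk.mem₁
  have ul := hQ.unit l T.sh.wk.mem₂
  -- the images
  have hab : mv g1 i ≠ mv g1 j := fun e => nij (mv_inj g1 e)
  have hac : mv g1 i ≠ mv g1 k := fun e => nik (mv_inj g1 e)
  have hbc : mv g1 j ≠ mv g1 k := fun e => njk (mv_inj g1 e)
  have hab' : mv g1 i ≠ mv g2 l := fun e => nkl (mv_inj g2 (T.ex.symm.trans e))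
  have hb'c : mv g2 l ≠ mv g1 k := fun e => nil (mv_inj g2 (T.ex'.symm.trans e.symm))
  have hbb' := T.ne
  have hn : Ne4 (mv g1 i) (mv g1 j) (mv g2 l) (mv g1 k) := ⟨hab, hab', hac, hbb', hbc, hb'c⟩
  have hn' : Ne4 (mv g1 i) (mv g2 l) (mv g1 j) (mv g1 k) :=
    ⟨hab', hab, hac, hbb'.symm, hb'c, hbc⟩
  have f1 : mv (g1 * g2⁻¹) (mv g1 i) = mv g1 k := by
    rw [T.ex, mul_inv_mv]
  have f2 : mv (g1 * g2⁻¹) (mv g1 k) = mv g1 i := by
    rw [T.ex', mul_inv_mv]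
  have f1' : mv (g2 * g1⁻¹) (mv g1 i) = mv g1 k := by
    rw [mul_inv_mv, T.ex']
  have f2' : mv (g2 * g1⁻¹) (mv g1 k) = mv g1 i := by
    rw [mul_inv_mv, T.ex]
  have v1 : vx (mv g1 i) (mv g1 j) = g1 v := by rw [hv, map_vx g1 dij]
  have v2 : vx (mv g1 i) (mv g2 l) = g2 w := by rw [T.ex, hw, map_vx g2 dkl]
  -- nonparallel pairs
  have dmv1 : ∀ s t, mv g1 s ∈ P → mv g1 t ∈ P → mv g1 s ≠ mv g1 t → dt s.1 t.1 ≠ 0 :=
    fun s t hs ht hst => dt_ne_of_mv g1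
      (dt_ne (hP.unit _ hs) (hP.unit _ ht) (g1'.lt1 _ hs _ ht hst))
  have dmv2 : ∀ s t, mv g2 s ∈ P → mv g2 t ∈ P → mv g2 s ≠ mv g2 t → dt s.1 t.1 ≠ 0 :=
    fun s t hs ht hst => dt_ne_of_mv g2
      (dt_ne (hP.unit _ hs) (hP.unit _ ht) (g1'.lt1 _ hs _ ht hst))
  have dik := dmv1 i k T.i1 T.k1 hac
  have djk := dmv1 j k T.j1 T.k1 hbc
  have dil := dmv2 i l T.i2 T.l2 (fun e => nil (mv_inj g2 e))
  have djl : dt j.1 l.1 ≠ 0 := by
    intro h0
    have hsw := swap_lin (g1 * g2⁻¹) (hP.unit _ T.i1) (hP.unit _ T.k1)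
      (dt_ne (hP.unit _ T.i1) (hP.unit _ T.k1) (g1'.lt1 _ T.i1 _ T.k1 hac)) f1 f2 (mv g2 l).1
    rw [← mv_fst, mul_inv_mv] at hsw
    have hb'1 := conj_sq_one (hP.unit _ T.l2)
    have h4 := g1'.four _ T.i1 _ T.j1 _ T.k1 _ T.l2 hab hac hab' hbc hbb' hb'c.symm
    have hlin : (mv g1 l).1 = g1.linearIsometryEquiv l.1 := rfl
    have hjin : (mv g1 j).1 = g1.linearIsometryEquiv j.1 := rfl
    have e1 : (mv g1 i).1 * (mv g1 k).1 = (mv g1 l).1 * (mv g2 l).1 := by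
      rw [hsw, mul_assoc, mul_comm ((starRingEnd ℂ) _), hb'1, mul_one]
    rcases dt_zero uj ul h0 with h1 | h1
    · apply h4.1
      rw [e1, hlin, h1, ← hjin]
    · apply h4.2
      rw [e1, hlin, h1, map_neg, ← hjin]; ring
  have hnp : Np ({i, j, k, l} : Finset HP) := by
    have sy : ∀ {a b : ℂ}, dt a b ≠ 0 → dt b a ≠ 0 := by
      intro a b hh h0; apply hh; rw [dt_comm, h0, neg_zero]
    intro s hs t ht hst
    simp only [Finset.mem_insert, Finset.mem_singleton] at hs ht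
    rcases hs with rfl | rfl | rfl | rfl <;> rcases ht with rfl | rfl | rfl | rfl <;>
      first
      | exact absurd rfl hst
      | assumption
      | (apply sy; assumption)
  -- not orthogonal to the diagonal
  have a1 : ip (w - v) (I * i.1) ≠ 0 := ac_ne ui T.ai
  have a3 : ip (w - v) (I * k.1) ≠ 0 := neg_ip (ac_ne uk T.ak)
  have a2 : ip (w - v) (I * j.1) ≠ 0 := by
    have := hG.n5 _ T.i1 _ T.j1 _ T.l2 _ T.k1 hn _ f1 f2
    rw [v1, v2, mul_inv_app] at this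
    apply neg_ip
    intro h0
    have h1 := ip_I_map g1 v w j
    rw [h0, abs_zero, abs_eq_zero] at h1
    exact this h1
  have a4 : ip (w - v) (I * l.1) ≠ 0 := by
    have := hG.n5 _ T.i1 _ T.l2 _ T.j1 _ T.k1 hn' _ f1' f2'
    rw [v1, v2, mul_inv_app] at this
    intro h0
    have h1 := ip_I_map g2 w v l
    rw [h0, abs_zero, abs_eq_zero] at h1
    exact this h1
  have b1 : ip i.1 j.1 ≠ 0 := by
    rw [← mv_ip g1]; exact g1'.ne0 _ T.i1 _ T.j1 hab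
  have b2 : ip k.1 l.1 ≠ 0 := by
    rw [← mv_ip g2]; exact g1'.ne0 _ T.k2 _ T.l2 (fun e => nkl (mv_inj g2 e))
  obtain ⟨c, hT, hS, hlen, c1, c2, c3, c4⟩ :=
    hto3 Q hQ h i j k l v w T.sh T.min hnp a1 a2 a3 a4 b1 b2
  rw [T.len] at hT hS hlen
  refine ⟨⟨c, hT, hS, ?_⟩, ?_⟩
  · have e1 : 0 < c j := c1.mpr T.ai
    have e2 : c i < 0 := lt_of_le_of_ne (not_lt.mp fun h0 => T.aj (c2.mp h0)) (hT.ne i (by simp))
    have e3 : 0 < c l := c3.mpr T.ak
    have e4 : c k < 0 := lt_of_le_of_ne (not_lt.mp fun h0 => T.al (c4.mp h0)) (hT.ne k (by simp))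
    have : Mm {i, j, k, l} c = {i, k} := by
      ext x
      simp only [Mm, Finset.mem_filter, Finset.mem_insert, Finset.mem_singleton]
      constructor
      · rintro ⟨rfl | rfl | rfl | rfl, hx⟩
        · left; rfl
        · exact absurd hx (not_lt.mpr e1.le)
        · right; rfl
        · exact absurd hx (not_lt.mpr e3.le)
      · rintro (rfl | rfl)
        · exact ⟨Or.inl rfl, e2⟩
        · exact ⟨Or.inr (Or.inr (Or.inl rfl)), e4⟩
    rw [this, Finset.card_pair nik]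
  · refine ⟨_, T.i1, _, T.j1, _, T.l2, _, T.k1, hn, _, f1, f2, ?_⟩
    rw [v1, v2, mul_inv_app, dist_map, hlen]; ring

theorem collect {X Y : Finset HP} {L : ℝ} (Φ : Finset HP → (HP → ℝ) → Prop)
    (H : ∀ h, Unl X Y h → lam h = L → 4 ≤ (touch X h).card →
      ∃ c, TornC X (touch X h) h L c ∧ Φ (touch X h) c) :
    ∃ (T : Finset (Finset HP)) (c : Finset HP → HP → ℝ) (K : Finset HP → ℂ → ℝ),
      (∀ F ∈ T, F ⊆ X ∧ TornC X F (K F) L (c F) ∧ Unl X Y (K F) ∧ Φ F (c F) ∧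
        lam (K F) = L ∧ 4 ≤ (touch X (K F)).card) ∧
      ∀ h, Unl X Y h → lam h = L → 4 ≤ (touch X h).card →
        touch X h ∈ T ∧ h = K (touch X h) := by
  classical
  have hex : ∀ F : Finset HP, ∃ (c : HP → ℝ) (K : ℂ → ℝ),
      (∃ h, Unl X Y h ∧ lam h = L ∧ 4 ≤ (touch X h).card ∧ touch X h = F) →
        TornC X F K L c ∧ Unl X Y K ∧ Φ F c ∧ lam K = L ∧ 4 ≤ (touch X K).card := by
    intro F
    by_cases hF : ∃ h, Unl X Y h ∧ lam h = L ∧ 4 ≤ (touch X h).card ∧ touch X h = F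
    · obtain ⟨h, h1, h2, h3, rfl⟩ := hF
      obtain ⟨c, hc, hc'⟩ := H h h1 h2 h3
      exact ⟨c, h, fun _ => ⟨hc, h1, hc', h2, h3⟩⟩
    · exact ⟨fun _ => 0, fun _ => 0, fun h => absurd h hF⟩
  choose c K hcK using hex
  refine ⟨X.powerset.filter fun F => ∃ h, Unl X Y h ∧ lam h = L ∧ 4 ≤ (touch X h).card ∧
    touch X h = F, c, K, ?_, ?_⟩
  · intro F hF
    rw [Finset.mem_filter, Finset.mem_powerset] at hF
    obtain ⟨h1, h2, h3, h4, h5⟩ := hcK F hF.2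
    exact ⟨hF.1, h1, h2, h3, h4, h5⟩
  · intro h h1 h2 h3
    have hp : ∃ h', Unl X Y h' ∧ lam h' = L ∧ 4 ≤ (touch X h').card ∧ touch X h' = touch X h :=
      ⟨h, h1, h2, h3, rfl⟩
    refine ⟨?_, ?_⟩
    · rw [Finset.mem_filter, Finset.mem_powerset]
      exact ⟨Finset.filter_subset _ _, hp⟩
    · have ht := (hcK _ hp).1
      apply ht.uniq h h1.1.sub _ h2.le
      intro s hs
      rw [(Finset.mem_filter.mp hs).2, sub_self, mul_zero]

end Pool.Agent.XQ.H52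

namespace Pool.Agent.XQ

open MeasureTheory Complex Filter Topology Pool.Agent.H62T
open Pool.Agent.H16F (Sublin)
open Pool.Agent.AEU H52

theorem ctx (hvxx : VxxStatement) (hcpx : CpxStatement) (hcqx : CqxStatement)
    (htoe : ToeStatement) (hto3 : To3Statement) (hto4 : To4Statement) : CtxStatement := by
  intro P Q L hG hQ hH hL0 hP4 hQ4
  have g1 := hG.gen.g1
  obtain ⟨TP, cP, KP, hTP, hTP'⟩ := collect (X := P) (Y := Q) (L := L) (fun F c => TyP F c L) (by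
    intro h h1 h2 h3
    obtain ⟨hm, hs⟩ := hcpx P Q L hH hG hQ h h1 h2 h3
    exact torn_P hvxx htoe hto3 hto4 hG h2 hm hs)
  obtain ⟨TQ, cQ, KQ, hTQ, hTQ'⟩ := collect (X := Q) (Y := P) (L := L)
    (fun F c => Std3 F (Mm F c) L ∧ (Mm F c).card = 2) (by
    intro h h1 h2 h3
    obtain ⟨i, j, k, l, v, w, g1, g2, hq, ht⟩ := hcqx P Q L hH hG hQ h h1 h2 h3
    obtain ⟨⟨c, c1, c2, c3⟩, -⟩ := torn_Q hvxx hto3 hG hQ hq
    refine ⟨c, ?_, ?_, ?_⟩
    · rw [ht]; exact c1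
    · rw [ht]; exact c2
    · rw [ht]; exact c3)
  refine ⟨TP, TQ, cP, cQ, KP, KQ, ?_⟩
  constructor
  · exact hG
  · exact hQ
  · exact hH
  · exact hL0
  · exact hP4
  · exact hQ4
  · intro F hF
    obtain ⟨h1, h2, h3, h4, -⟩ := hTP F hF
    exact ⟨h1, h2, h3, h4⟩
  · exact hTP'
  · intro F hF
    obtain ⟨h1, h2, h3, h4, -⟩ := hTQ F hF
    exact ⟨h1, h2, h3, h4.1, h4.2⟩
  · exact hTQ'
  · -- type E
    intro F hF F' hF' α θ γ θ' γ' hS hS'
    obtain ⟨s1, t1, -⟩ := hTP F hF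
    obtain ⟨s2, t2, -⟩ := hTP F' hF'
    obtain ⟨i, j, q, r, rfl, n1, e1, l1⟩ := stdE_read t1.card t1.np hS
    obtain ⟨i', j', q', r', rfl, n2, e2, l2⟩ := stdE_read t2.card t2.np hS'
    have m : ∀ {x : HP}, x ∈ ({i, j, q, r} : Finset HP) → x ∈ P := fun h => s1 h
    have m' : ∀ {x : HP}, x ∈ ({i', j', q', r'} : Finset HP) → x ∈ P := fun h => s2 h
    have hi : i ∈ P := m (by simp)
    have hj : j ∈ P := m (by simp)
    have hq : q ∈ P := m (by simp)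
    have hr : r ∈ P := m (by simp)
    have hi' : i' ∈ P := m' (by simp)
    have hj' : j' ∈ P := m' (by simp)
    have hq' : q' ∈ P := m' (by simp)
    have hr' : r' ∈ P := m' (by simp)
    have fin : ∀ q' ∈ P, ∀ r' ∈ P, Ne4 i j q' r' → hE i j q r = hE i j q' r' →
        ({i, j, q, r} : Finset HP) = {i, j, q', r'} := by
      intro q' hq' r' hr' hne hh
      rcases hG.n2 i hi j hj q hq r hr q' hq' r' hr' n1 hne hh with ⟨rfl, rfl⟩ | ⟨rfl, rfl⟩
      · rfl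
      · ext x; simp only [Finset.mem_insert, Finset.mem_singleton]; tauto
    rcases g1.inj i hi j hj i' hi' j' hj' n1.1 n2.1 (by rw [e1, e2]) with ⟨rfl, rfl⟩ | ⟨rfl, rfl⟩
    · exact fin q' hq' r' hr' n2 (l1.trans l2.symm)
    · have n2' : Ne4 i j q' r' := ⟨n2.1.symm, n2.2.2.2.1, n2.2.2.2.2.1, n2.2.1, n2.2.2.1,
        n2.2.2.2.2.2⟩
      have := fin q' hq' r' hr' n2' (by
        rw [l1, ← l2]; unfold hE; rw [vx_comm j i])
      rw [this]
      ext x; simp only [Finset.mem_insert, Finset.mem_singleton]; tauto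
  · -- type III
    intro F hF F' hF' hS hS'
    obtain ⟨s1, t1, -⟩ := hTP F hF
    obtain ⟨s2, t2, -⟩ := hTP F' hF'
    obtain ⟨i, j, q, r, rfl, n1, l1⟩ := std3_read t1.card t1.np hS
    obtain ⟨i', j', q', r', rfl, n2, l2⟩ := std3_read t2.card t2.np hS'
    have m : ∀ {x : HP}, x ∈ ({i, j, q, r} : Finset HP) → x ∈ P := fun h => s1 h
    have m' : ∀ {x : HP}, x ∈ ({i', j', q', r'} : Finset HP) → x ∈ P := fun h => s2 h
    exact hG.n3 i (m (by simp)) j (m (by simp)) q (m (by simp)) r (m (by simp))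
      i' (m' (by simp)) j' (m' (by simp)) q' (m' (by simp)) r' (m' (by simp)) n1 n2
      (l1.trans l2.symm)
  · -- type III in both polygons
    rintro ⟨F', hF'⟩ F hF hS
    obtain ⟨-, -, h3, -, h5, h6⟩ := hTQ F' hF'
    obtain ⟨i, j, k, l, v, w, g1, g2, hq, -⟩ := hcqx P Q L hH hG hQ _ h3 h5 h6
    obtain ⟨-, a, ha, b, hb, b', hb', c, hc, hne, f, f1, f2, hlen⟩ := torn_Q hvxx hto3 hG hQ hq
    obtain ⟨s1, t1, -⟩ := hTP F hF
    obtain ⟨i, j, q, r, rfl, n1, l1⟩ := std3_read t1.card t1.np hS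
    have m : ∀ {x : HP}, x ∈ ({i, j, q, r} : Finset HP) → x ∈ P := fun h => s1 h
    exact hG.n4 a ha b hb b' hb' c hc i (m (by simp)) j (m (by simp)) q (m (by simp)) r
      (m (by simp)) hne n1 f f1 f2 (hlen.trans l1.symm)

end Pool.Agent.XQ
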