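import Pool.Agent.Helper16_XQ.StmtG
import Pool.Agent.Helper72_AEU.ACT
import Pool.Agent.Helper69_AEU.Tools

/-!
Squad XQ, module CTX, part A: elementary geometry.
-/

set_option autoImplicit false

namespace Pool.Agent.XQ.H52

open MeasureTheory Complex Filter Topology Pool.Agent.H62T
open Pool.Agent.H16F (Sublin)
open Pool.Agent.AEU Pool.Agent.XQ

theorem vx_comm (s t : HP) : vx s t = vx t s := by
  unfold vx
  have h : dt t.1 s.1 = -dt s.1 t.1 := by unfold dt; ring
  rw [h]
  push_cast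
  rw [div_neg, ← neg_div]
  congr 1
  ring

theorem ip_comm (a b : ℂ) : ip a b = ip b a := by unfold ip; ring

theorem dt_comm (a b : ℂ) : dt a b = -dt b a := by unfold dt; ring

theorem nsq {a : ℂ} (ha : ‖a‖ = 1) : a.re * a.re + a.im * a.im = 1 := by
  have h := Complex.sq_norm a
  rw [ha, Complex.normSq_apply] at h
  linarith

theorem dt_ip_sq {a b : ℂ} (ha : ‖a‖ = 1) (hb : ‖b‖ = 1) : dt a b ^ 2 + ip a b ^ 2 = 1 := by
  have h1 := nsq ha
  have h2 := nsq hb
  have : dt a b ^ 2 + ip a b ^ 2 = (a.re * a.re + a.im * a.im) * (b.re * b.re + b.im * b.im) := by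
    unfold dt ip; ring
  rw [this, h1, h2, one_mul]

theorem dt_ne {a b : ℂ} (ha : ‖a‖ = 1) (hb : ‖b‖ = 1) (h : |ip a b| < 1) : dt a b ≠ 0 := by
  intro h0
  have h1 := dt_ip_sq ha hb
  rw [h0] at h1
  have h2 : |ip a b| ^ 2 = 1 := by rw [sq_abs]; linarith
  nlinarith [abs_nonneg (ip a b)]

theorem dt_zero {a b : ℂ} (ha : ‖a‖ = 1) (hb : ‖b‖ = 1) (h : dt a b = 0) : b = a ∨ b = -a := by
  have h1 := nsq ha
  have h2 := nsq hb
  have h3 := dt_ip_sq ha hb
  rw [h] at h3
  have h4 : ip a b = 1 ∨ ip a b = -1 := by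
    have : (ip a b - 1) * (ip a b + 1) = 0 := by nlinarith
    rcases mul_eq_zero.mp this with h | h
    · left; linarith
    · right; linarith
  have key : ∀ c : ℝ, ip a b = c → b = (c : ℂ) * a := by
    intro c hc
    unfold ip at hc
    unfold dt at h
    apply Complex.ext
    · simp
      have : b.re * (a.re * a.re + a.im * a.im) = c * a.re := by
        rw [← hc]; linear_combination (-a.im) * h
      rw [h1] at this; linarith
    · simp
      have : b.im * (a.re * a.re + a.im * a.im) = c * a.im := by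
        rw [← hc]; linear_combination (a.re) * h
      rw [h1] at this; linarith
  rcases h4 with h4 | h4
  · left; have := key _ h4; simpa using this
  · right; have := key _ h4; simpa using this

theorem vx_on {s t : HP} (h : dt s.1 t.1 ≠ 0) : ip s.1 (vx s t) = s.2 ∧ ip t.1 (vx s t) = t.2 := by
  have h' : ((dt s.1 t.1 : ℝ) : ℂ) ≠ 0 := by exact_mod_cast h
  have key : vx s t = (((t.2 * (-s.1.im) - s.2 * (-t.1.im)) / dt s.1 t.1 : ℝ) : ℂ)
      + (((t.2 * s.1.re - s.2 * t.1.re) / dt s.1 t.1 : ℝ) : ℂ) * I := by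
    unfold vx
    push_cast
    field_simp
    apply Complex.ext <;> simp <;> ring
  have hre : (vx s t).re = (t.2 * (-s.1.im) - s.2 * (-t.1.im)) / dt s.1 t.1 := by
    rw [key]; simp
  have him : (vx s t).im = (t.2 * s.1.re - s.2 * t.1.re) / dt s.1 t.1 := by
    rw [key]; simp
  constructor
  · unfold ip
    rw [hre, him]
    field_simp
    unfold dt; ring
  · unfold ip
    rw [hre, him]
    field_simp
    unfold dt; ring

theorem on_uniq {a b : ℂ} (h : dt a b ≠ 0) {x y : ℂ} (h1 : ip a x = ip a y)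
    (h2 : ip b x = ip b y) : x = y := by
  unfold ip at h1 h2
  have e1 : dt a b * (x.re - y.re) = 0 := by
    unfold dt; linear_combination b.im * h1 - a.im * h2
  have e2 : dt a b * (x.im - y.im) = 0 := by
    unfold dt; linear_combination (-b.re) * h1 + a.re * h2
  apply Complex.ext
  · rcases mul_eq_zero.mp e1 with h' | h'
    · exact absurd h' h
    · linarith
  · rcases mul_eq_zero.mp e2 with h' | h'
    · exact absurd h' h
    · linarith

theorem act : ActStatement := Pool.Agent.AEU.H72.act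

theorem mv_on (g : Iso2) {s : HP} {x : ℂ} (h : ip s.1 x = s.2) :
    ip (mv g s).1 (g x) = (mv g s).2 := by
  have := act.2.2.2.2.2.1 g x s
  linarith

theorem mv_ip (g : Iso2) (s t : HP) : ip (mv g s).1 (mv g t).1 = ip s.1 t.1 :=
  act.2.2.2.2.2.2.2.1 g s t

theorem mv_dt (g : Iso2) (s t : HP) : |dt (mv g s).1 (mv g t).1| = |dt s.1 t.1| :=
  act.2.2.2.2.2.2.2.2.1 g s t

theorem mv_norm (g : Iso2) (s : HP) : ‖(mv g s).1‖ = ‖s.1‖ :=
  act.2.2.2.2.2.2.2.2.2.1 g s

theorem mv_dt_ne (g : Iso2) {s t : HP} (h : dt s.1 t.1 ≠ 0) : dt (mv g s).1 (mv g t).1 ≠ 0 := by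
  intro h'
  have := mv_dt g s t
  rw [h', abs_zero] at this
  exact h (abs_eq_zero.mp this.symm)

theorem dt_ne_of_mv (g : Iso2) {s t : HP} (h : dt (mv g s).1 (mv g t).1 ≠ 0) :
    dt s.1 t.1 ≠ 0 := by
  intro h'
  have := mv_dt g s t
  rw [h', abs_zero] at this
  exact h (abs_eq_zero.mp this)

theorem map_vx (g : Iso2) {s t : HP} (h : dt s.1 t.1 ≠ 0) :
    g (vx s t) = vx (mv g s) (mv g t) := by
  have h1 := vx_on h
  have h2 := mv_dt_ne g h
  have h3 := vx_on h2
  exact on_uniq h2 ((mv_on g h1.1).trans h3.1.symm) ((mv_on g h1.2).trans h3.2.symm)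

theorem mv_inj (g : Iso2) : Function.Injective (mv g) := Pool.Agent.AEU.H69.mv_inj act g

theorem mv_mul (g g' : Iso2) (s : HP) : mv (g * g') s = mv g (mv g' s) := act.1 g g' s

/-- linear isometries of the plane -/
theorem lin_cases (g : Iso2) : ∃ u : ℂ, ‖u‖ = 1 ∧
    ((∀ z, g.linearIsometryEquiv z = u * z) ∨
      (∀ z, g.linearIsometryEquiv z = u * (starRingEnd ℂ) z)) := by
  obtain ⟨a, ha⟩ := linear_isometry_complex g.linearIsometryEquiv
  refine ⟨a, Circle.norm_coe a, ?_⟩
  rcases ha with ha | ha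
  · left; intro z; rw [ha]; simp [rotation_apply]
  · right; intro z; rw [ha]; simp [rotation_apply]

theorem mv_fst (g : Iso2) (s : HP) : (mv g s).1 = g.linearIsometryEquiv s.1 := rfl

/-- an isometry which exchanges two nonparallel normals -/
theorem swap_lin (g : Iso2) {a c : HP} (ua : ‖a.1‖ = 1) (uc : ‖c.1‖ = 1) (hd : dt a.1 c.1 ≠ 0)
    (h1 : mv g a = c) (h2 : mv g c = a) (z : ℂ) :
    g.linearIsometryEquiv z = a.1 * c.1 * (starRingEnd ℂ) z := by
  obtain ⟨u, hu, h⟩ := lin_cases g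
  have e1 : g.linearIsometryEquiv a.1 = c.1 := by rw [← mv_fst, h1]
  have e2 : g.linearIsometryEquiv c.1 = a.1 := by rw [← mv_fst, h2]
  rcases h with h | h
  · exfalso
    rw [h] at e1 e2
    have e3 : u * u * a.1 = a.1 := by rw [mul_assoc, e1, e2]
    have ha0 : a.1 ≠ 0 := by intro h0; rw [h0] at ua; simp at ua
    have e4 : u * u = 1 := mul_right_cancel₀ ha0 (by rw [e3, one_mul])
    have e5 : (u - 1) * (u + 1) = 0 := by linear_combination e4
    apply hd
    rcases mul_eq_zero.mp e5 with h' | h'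
    · have : u = 1 := by linear_combination h'
      rw [this, one_mul] at e1
      rw [← e1]; unfold dt; ring
    · have : u = -1 := by linear_combination h'
      rw [this] at e1
      rw [← e1]; unfold dt; simp; ring
  · rw [h] at e1
    have ha1 : a.1 * (starRingEnd ℂ) a.1 = 1 := by
      rw [Complex.mul_conj, Complex.normSq_eq_norm_sq, ua]; norm_num
    have e3 : u = a.1 * c.1 := by
      calc u = u * (a.1 * (starRingEnd ℂ) a.1) := by rw [ha1, mul_one]
        _ = a.1 * (u * (starRingEnd ℂ) a.1) := by ring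
        _ = a.1 * c.1 := by rw [e1]
    rw [h, e3]

theorem conj_sq_one {a : ℂ} (ha : ‖a‖ = 1) : a * (starRingEnd ℂ) a = 1 := by
  rw [Complex.mul_conj, Complex.normSq_eq_norm_sq, ha]; norm_num

/-- `ip (g x - g y) (I g s) ≠ 0` -/
theorem ip_I_map (g : Iso2) (x y : ℂ) (s : HP) :
    |ip (g x - g y) (I * (mv g s).1)| = |ip (x - y) (I * s.1)| := by
  have e : g x - g y = g.linearIsometryEquiv (x - y) := by
    rw [map_sub, Pool.Agent.AEU.H72.app g x, Pool.Agent.AEU.H72.app g y]; ring
  rw [e, mv_fst]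
  obtain ⟨u, hu, h⟩ := lin_cases g
  have h1 := nsq hu
  rcases h with h | h
  · rw [h, h]
    have : ip (u * (x - y)) (I * (u * s.1)) =
        (u.re * u.re + u.im * u.im) * ip (x - y) (I * s.1) := by
      unfold ip; simp; ring
    rw [this, h1, one_mul]
  · rw [h, h]
    have : ip (u * (starRingEnd ℂ) (x - y)) (I * (u * (starRingEnd ℂ) s.1)) =
        -((u.re * u.re + u.im * u.im) * ip (x - y) (I * s.1)) := by
      unfold ip; simp; ring
    rw [this, h1, one_mul, abs_neg]

theorem dist_map (g : Iso2) (x y : ℂ) : ‖g x - g y‖ = ‖x - y‖ := by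
  have := g.dist_map x y
  rwa [dist_eq_norm, dist_eq_norm] at this

theorem ac_ne {e : ℂ} {i j : HP} (ui : ‖i.1‖ = 1) (h : Ac e i j) : ip e (I * i.1) ≠ 0 := by
  intro h0
  unfold Ac at h
  have h1 := nsq ui
  have : ip e j.1 - ip i.1 j.1 * ip e i.1 = ip e (I * i.1) * dt i.1 j.1 := by
    have e1 : ip e j.1 = ip e j.1 * (i.1.re * i.1.re + i.1.im * i.1.im) := by rw [h1, mul_one]
    rw [e1]
    unfold ip dt; simp; ring
  rw [h0, zero_mul] at this
  linarith

end Pool.Agent.XQ.H52
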