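import Pool.Agent.Helper52_XQ.CtxA

/-!
Squad XQ, module CTX, part B: reading the standard forms, and the types of the torn bodies.
-/

set_option autoImplicit false

namespace Pool.Agent.XQ.H52

open MeasureTheory Complex Filter Topology Pool.Agent.H62T
open Pool.Agent.H16F (Sublin)
open Pool.Agent.AEU Pool.Agent.XQ

theorem ne4_of_card {a b c d : HP} (h : ({a, b, c, d} : Finset HP).card = 4) : Ne4 a b c d := by
  have key : ∀ x y z : HP, ({x, y, z} : Finset HP).card ≤ 3 := fun x y z => Finset.card_le_three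
  refine ⟨?_, ?_, ?_, ?_, ?_, ?_⟩ <;> intro e <;> subst e
  · have : ({a, a, c, d} : Finset HP) = {a, c, d} := by simp
    rw [this] at h; have := key a c d; omega
  · have : ({a, b, a, d} : Finset HP) = {a, b, d} := by
      ext x; simp only [Finset.mem_insert, Finset.mem_singleton]; tauto
    rw [this] at h; have := key a b d; omega
  · have : ({a, b, c, a} : Finset HP) = {a, b, c} := by
      ext x; simp only [Finset.mem_insert, Finset.mem_singleton]; tauto
    rw [this] at h; have := key a b c; omega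
  · have : ({a, b, b, d} : Finset HP) = {a, b, d} := by
      ext x; simp only [Finset.mem_insert, Finset.mem_singleton]; tauto
    rw [this] at h; have := key a b d; omega
  · have : ({a, b, c, b} : Finset HP) = {a, b, c} := by
      ext x; simp only [Finset.mem_insert, Finset.mem_singleton]; tauto
    rw [this] at h; have := key a b c; omega
  · have : ({a, b, c, c} : Finset HP) = {a, b, c} := by
      ext x; simp only [Finset.mem_insert, Finset.mem_singleton]; tauto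
    rw [this] at h; have := key a b c; omega

theorem pull4 (g : Iso2) {F : Finset HP} {A B C D : HP} (h : F.image (mv g) = {A, B, C, D}) :
    ∃ a b c d, F = {a, b, c, d} ∧ mv g a = A ∧ mv g b = B ∧ mv g c = C ∧ mv g d = D := by
  have hm : ∀ X ∈ ({A, B, C, D} : Finset HP), ∃ x ∈ F, mv g x = X := by
    intro X hX
    rw [← h] at hX
    exact Finset.mem_image.mp hX
  obtain ⟨a, ha, ha'⟩ := hm A (by simp)
  obtain ⟨b, hb, hb'⟩ := hm B (by simp)
  obtain ⟨c, hc, hc'⟩ := hm C (by simp)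
  obtain ⟨d, hd, hd'⟩ := hm D (by simp)
  refine ⟨a, b, c, d, ?_, ha', hb', hc', hd'⟩
  apply Finset.image_injective (mv_inj g)
  rw [h]
  simp only [Finset.image_insert, Finset.image_singleton, ha', hb', hc', hd']

theorem vx_UD (η1 η2 : ℝ) : vx (lnU η1) (lnD η2) = 0 := by
  unfold vx lnU lnD; simp

theorem lnN_re (δ : ℝ) (a : ℂ) : (lnN δ a).1.re = Real.cos δ ∧ (lnN δ a).1.im = Real.sin δ := by
  unfold lnN
  exact ⟨Complex.exp_ofReal_mul_I_re δ, Complex.exp_ofReal_mul_I_im δ⟩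

theorem dt_NN (δ1 δ2 : ℝ) (a b : ℂ) : dt (lnN δ1 a).1 (lnN δ2 b).1 = Real.sin (δ2 - δ1) := by
  obtain ⟨h1, h2⟩ := lnN_re δ1 a
  obtain ⟨h3, h4⟩ := lnN_re δ2 b
  unfold dt
  rw [h1, h2, h3, h4, Real.sin_sub]; ring

theorem vx_NN {δ1 δ2 : ℝ} {a : ℂ} (h : dt (lnN δ1 a).1 (lnN δ2 a).1 ≠ 0) :
    vx (lnN δ1 a) (lnN δ2 a) = a := by
  have h1 := vx_on h
  exact on_uniq h h1.1 h1.2

theorem lnU_re (η : ℝ) : (lnU η).1.re = -Real.sin η ∧ (lnU η).1.im = Real.cos η := by
  unfold lnU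
  simp only [Complex.I_mul_re, Complex.I_mul_im, Complex.exp_ofReal_mul_I_re,
    Complex.exp_ofReal_mul_I_im]
  simp

theorem lnD_re (η : ℝ) : (lnD η).1.re = -Real.sin η ∧ (lnD η).1.im = -Real.cos η := by
  unfold lnD
  have e : -((η : ℂ) * I) = ((-η : ℝ) : ℂ) * I := by push_cast; ring
  rw [e]
  simp only [Complex.neg_re, Complex.neg_im, Complex.I_mul_re, Complex.I_mul_im,
    Complex.exp_ofReal_mul_I_re, Complex.exp_ofReal_mul_I_im, Real.cos_neg, Real.sin_neg]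
  simp

theorem ip_UD (η1 η2 : ℝ) : ip (lnU η1).1 (lnD η2).1 = -Real.cos (η1 + η2) := by
  obtain ⟨h1, h2⟩ := lnU_re η1
  obtain ⟨h3, h4⟩ := lnD_re η2
  unfold ip
  rw [h1, h2, h3, h4, Real.cos_add]; ring

theorem np4 {a b c d : HP} (hn : Ne4 a b c d) (h : Np ({a, b, c, d} : Finset HP)) :
    dt a.1 b.1 ≠ 0 ∧ dt c.1 d.1 ≠ 0 :=
  ⟨h a (by simp) b (by simp) hn.1, h c (by simp) d (by simp) hn.2.2.2.2.2⟩

theorem stdE_read {F E : Finset HP} {L α θ γ : ℝ} (hF : F.card = 4) (hnp : Np F)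
    (h : StdE F E L α θ γ) : ∃ i j q r, F = {i, j, q, r} ∧ Ne4 i j q r ∧
      ip i.1 j.1 = -Real.cos α ∧ hE i j q r = L / 2 := by
  obtain ⟨g, η1, η2, δ1, δ2, ρ, e1, e2, e3, d1, d2, d3, d4, d5, d6, d7, hρ, hI, hc, hL, hα, -, -⟩
    := h
  obtain ⟨i, j, q, r, rfl, hi, hj, hq, hr⟩ := pull4 g hI
  have hn := ne4_of_card hF
  obtain ⟨n1, n2⟩ := np4 hn hnp
  refine ⟨i, j, q, r, rfl, hn, ?_, ?_⟩
  · rw [← mv_ip g, hi, hj, ip_UD, hα]
  · have v1 : g (vx i j) = 0 := by rw [map_vx g n1, hi, hj, vx_UD]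
    have v2 : g (vx q r) = ρ := by
      have := mv_dt_ne g n2
      rw [map_vx g n2]
      rw [hq, hr] at this ⊢
      exact vx_NN this
    have v3 : ‖vx i j - vx q r‖ = ρ := by
      rw [← dist_map g, v1, v2, zero_sub, norm_neg, Complex.norm_real, Real.norm_eq_abs,
        abs_of_pos hρ]
    have hs : 0 < Real.sin (δ2 - δ1) := by
      apply Real.sin_pos_of_pos_of_lt_pi
      · linarith [Real.pi_pos]
      · linarith
    have v4 : |dt q.1 r.1| = Real.sin (δ2 - δ1) := by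
      rw [← mv_dt g, hq, hr, dt_NN, abs_of_pos hs]
    unfold hE
    rw [v3, v4, hL]; ring

theorem std3_read {F E : Finset HP} {L : ℝ} (hF : F.card = 4) (hnp : Np F)
    (h : Std3 F E L) : ∃ i j k l, F = {i, j, k, l} ∧ Ne4 i j k l ∧
      ‖vx i j - vx k l‖ = L / 2 := by
  obtain ⟨g, η1, η2, ζ1, ζ2, d, -, -, -, -, -, -, -, -, -, -, -, -, hd, hL, hI, -⟩ := h
  obtain ⟨i, j, q, r, rfl, hi, hj, hq, hr⟩ := pull4 g hI
  have hn := ne4_of_card hF
  obtain ⟨n1, n2⟩ := np4 hn hnp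
  refine ⟨i, j, q, r, rfl, hn, ?_⟩
  have v1 : g (vx i j) = 0 := by rw [map_vx g n1, hi, hj, vx_UD]
  have v2 : g (vx q r) = d := by
    have := mv_dt_ne g n2
    rw [map_vx g n2]
    rw [hq, hr] at this ⊢
    exact vx_NN this
  rw [← dist_map g, v1, v2, zero_sub, norm_neg, Complex.norm_real, Real.norm_eq_abs,
    abs_of_pos hd, hL]; ring

theorem np_of_lt1 {P : Finset HP} (hP : Pg P) (g1 : G1 P) {F : Finset HP} (hF : F ⊆ P) : Np F := by
  intro s hs t ht hst
  exact dt_ne (hP.unit s (hF hs)) (hP.unit t (hF ht)) (g1.lt1 s (hF hs) t (hF ht) hst)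

/-- the types of the torn bodies in `P` -/
def TyP (F : Finset HP) (c : HP → ℝ) (L : ℝ) : Prop :=
  (∃ α θ γ, StdE F (Mm F c) L α θ γ ∧ ∀ n : ℤ, 4 * Real.cos (2 * Real.pi * θ / α) ≠ n) ∨
    Std3 F (Mm F c) L ∨ Std4 F (Mm F c) L

theorem sub4 {P : Finset HP} {a b c d : HP} (ha : a ∈ P) (hb : b ∈ P) (hc : c ∈ P) (hd : d ∈ P) :
    ({a, b, c, d} : Finset HP) ⊆ P := by
  intro x hx
  simp only [Finset.mem_insert, Finset.mem_singleton] at hx
  rcases hx with rfl | rfl | rfl | rfl <;> assumption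

theorem torn_P (hvxx : VxxStatement) (htoe : ToeStatement) (hto3 : To3Statement)
    (hto4 : To4Statement) {P : Finset HP} (hG : GenX P) {h : ℂ → ℝ} {L : ℝ} (hL : lam h = L)
    (hmin : MinF P h) (hs : (∃ i j q r v x y, ShE P h i j q r v x y) ∨
      (∃ i j k l v w, Sh3 P h i j k l v w) ∨ ∃ i j k s v w x, Sh4 P h i j k s v w x) :
    ∃ c, TornC P (touch P h) h L c ∧ TyP (touch P h) c L := by
  have hP := hG.gen.pg
  have g1 := hG.gen.g1
  have hvx := (hvxx P hP).2.2.2.2.1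
  subst hL
  rcases hs with ⟨i, j, q, r, v, x, y, he⟩ | ⟨i, j, k, l, v, w, h3⟩ | ⟨i, j, k, s, v, w, x, h4⟩
  · have hi := he.vi.mem₁
    have hj := he.vi.mem₂
    obtain ⟨hv, -, -⟩ := hvx i j v he.vi
    have hsub := sub4 hi hj he.qX he.rX
    have hn1 : ip (v - vx q r) (I * i.1) ≠ 0 := by
      rw [hv]; exact hG.n1 i hi j hj q he.qX r he.rX he.ne
    have hne' : Ne4 j i q r := ⟨he.ne.1.symm, he.ne.2.2.2.1, he.ne.2.2.2.2.1, he.ne.2.1,
      he.ne.2.2.1, he.ne.2.2.2.2.2⟩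
    have hn2 : ip (v - vx q r) (I * j.1) ≠ 0 := by
      rw [hv, vx_comm i j]; exact hG.n1 j hj i hi q he.qX r he.rX hne'
    have hn3 : ip i.1 j.1 + ip q.1 r.1 ≠ 0 := by
      intro h0
      have : |ip i.1 j.1| = |ip q.1 r.1| := by
        rw [show ip i.1 j.1 = -ip q.1 r.1 by linarith, abs_neg]
      rcases g1.inj i hi j hj q he.qX r he.rX he.ne.1 he.ne.2.2.2.2.2 this with ⟨h1, -⟩ | ⟨h1, -⟩
      · exact he.ne.2.1 h1
      · exact he.ne.2.2.1 h1
    obtain ⟨c, α, θ, γ, hT, hS, -, hα, hα0, hα1, hθ0, hθ1, s, hs, hs'⟩ :=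
      htoe P hP h i j q r v x y he hmin (np_of_lt1 hP g1 hsub) hn1 hn2 hn3
    have ht := hT.tch
    refine ⟨c, ?_, ?_⟩
    · rw [ht]; exact hT
    · rw [ht]
      left
      refine ⟨α, θ, γ, hS, ?_⟩
      intro n
      -- the condition for the side `s`
      have key : ∀ a b : HP, a ∈ P → b ∈ P → Ne4 a b q r → v = vx a b → ip a.1 b.1 = ip i.1 j.1 →
          (Real.cos θ * ‖vx q r - v‖ = ip (I * a.1) (vx q r - v) ∨
            Real.cos θ * ‖vx q r - v‖ = -ip (I * a.1) (vx q r - v)) →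
          4 * Real.cos (2 * Real.pi * θ / α) ≠ n := by
        intro a b ha hb hab hvab hip hc
        rw [hvab] at hc
        rcases hc with hc | hc
        · exact (hG.n8 a ha b hb q he.qX r he.rX hab α θ hα0 hα1 (by rw [hα, hip]) hθ0 hθ1 hc n).1
        · have := (hG.n8 a ha b hb q he.qX r he.rX hab α (Real.pi - θ) hα0 hα1 (by rw [hα, hip])
            (by linarith) (by linarith) (by rw [Real.cos_pi_sub]; linarith) n).2
          rwa [sub_sub_cancel] at this
      rcases hs with rfl | rfl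
      · exact key s j hi hj he.ne hv rfl hs'
      · exact key s i hj hi hne' (by rw [hv, vx_comm]) (ip_comm _ _) hs'
  · have hi := h3.vi.mem₁
    have hj := h3.vi.mem₂
    have hk := h3.wk.mem₁
    have hl := h3.wk.mem₂
    obtain ⟨hv, -, -⟩ := hvx i j v h3.vi
    obtain ⟨hw, -, -⟩ := hvx k l w h3.wk
    have hsub := sub4 hi hj hk hl
    have n := h3.ne
    obtain ⟨nij, nik, nil, njk, njl, nkl⟩ := n
    have a1 : ip (w - v) (I * i.1) ≠ 0 := by
      have := hG.n1 i hi j hj k hk l hl ⟨nij, nik, nil, njk, njl, nkl⟩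
      rw [← hv, ← hw] at this
      intro h0; apply this
      rw [← neg_sub, Pool.Agent.AEU.H69.ip_neg_left, h0, neg_zero]
    have a2 : ip (w - v) (I * j.1) ≠ 0 := by
      have := hG.n1 j hj i hi k hk l hl ⟨nij.symm, njk, njl, nik, nil, nkl⟩
      rw [vx_comm j i, ← hv, ← hw] at this
      intro h0; apply this
      rw [← neg_sub, Pool.Agent.AEU.H69.ip_neg_left, h0, neg_zero]
    have a3 : ip (w - v) (I * k.1) ≠ 0 := by
      have := hG.n1 k hk l hl i hi j hj ⟨nkl, nik.symm, njk.symm, nil.symm, njl.symm, nij⟩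
      rwa [← hv, ← hw] at this
    have a4 : ip (w - v) (I * l.1) ≠ 0 := by
      have := hG.n1 l hl k hk i hi j hj ⟨nkl.symm, nil.symm, njl.symm, nik.symm, njk.symm, nij⟩
      rwa [vx_comm l k, ← hv, ← hw] at this
    obtain ⟨c, hT, hS, -⟩ := hto3 P hP h i j k l v w h3 hmin (np_of_lt1 hP g1 hsub) a1 a2 a3 a4
      (g1.ne0 i hi j hj nij) (g1.ne0 k hk l hl nkl)
    have ht := hT.tch
    refine ⟨c, ?_, ?_⟩
    · rw [ht]; exact hT
    · rw [ht]; right; left; exact hS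
  · have hi := h4.vi.mem₁
    have hj := h4.vi.mem₂
    have hk := h4.wk.mem₂
    have hsX := h4.sX
    obtain ⟨hv, -, -⟩ := hvx i j v h4.vi
    obtain ⟨hw, -, -⟩ := hvx j k w h4.wk
    have hsub := sub4 hi hj hk hsX
    obtain ⟨nij, nik, nis, njk, njs, nks⟩ := h4.ne
    have a1 := hG.n6 i hi j hj k hk s hsX ⟨nij, nik, nis, njk, njs, nks⟩
    rw [← hv, ← hw] at a1
    have a2 := hG.n6 k hk j hj i hi s hsX ⟨njk.symm, nik.symm, nks, nij.symm, njs, nis⟩
    rw [vx_comm j i, vx_comm k j, ← hv, ← hw] at a2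
    obtain ⟨c, hT, hS⟩ := hto4 P hP h i j k s v w x h4 hmin (np_of_lt1 hP g1 hsub) a1 a2
      (g1.ne0 i hi j hj nij) (g1.ne0 j hj k hk njk)
    have ht := hT.tch
    refine ⟨c, ?_, ?_⟩
    · rw [ht]; exact hT
    · rw [ht]; right; right; exact hS

end Pool.Agent.XQ.H52
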